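import Pool.Agent.W957.CH.StmB

/-! Project CH: Lemma X -/

set_option autoImplicit false

namespace Pool.Agent.W356.CH

open Finset Pool.Agent.W957.CH

theorem t_XP (h1 : S_MARK) (h2 : S_SEG) (h3 : S_EC4) (h4 : S_XP1) : S_XP := by
  intro V _ X n c W T hOk hG hP
  obtain ⟨M, hM⟩ := h1 V X n c hOk hG
  obtain ⟨Sg, hSg1, hSg2, hSg3⟩ := h2 n M hM.lt
  have h3n : 3 ≤ n := hG.cr.three
  obtain ⟨K, hK⟩ : ∃ K, K = (T.card + Lam X.m + 2) + (T.card + Lam X.m + 2) ^ 2 * (X.m + 3) :=
    ⟨_, rfl⟩
  have hsub : att X.G c 0 (n - 1) W ⊆ M ∪ Sg.biUnion (fun p => att X.G c p.1 p.2 W) := by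
    intro i hi
    simp only [att, mem_filter, mem_Icc] at hi
    obtain ⟨⟨_, hi1⟩, hi2⟩ := hi
    by_cases hiM : i ∈ M
    · exact mem_union_left _ hiM
    · obtain ⟨p, hp, hp1, hp2⟩ := hSg3 i (by omega) hiM
      apply mem_union_right
      rw [mem_biUnion]
      refine ⟨p, hp, ?_⟩
      simp only [att, mem_filter, mem_Icc]
      exact ⟨⟨hp1, hp2⟩, hi2⟩
  have hpc : ∀ p ∈ Sg, (att X.G c p.1 p.2 W).card ≤ 2 + K := by
    intro p hp
    obtain ⟨hp1, hp2, hp3⟩ := hSg2 p hp
    by_cases h5 : 3 ≤ (att X.G c p.1 p.2 W).card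
    · have hgap := hM.gap p.1 p.2 hp1 hp2 hp3
      have hfree : Free X.G n c p.1 p.2 := by
        intro i hi1 hi2 hch
        exact hp3 i hi1 hi2 (hM.ce i (by omega) hch)
      have := h4 V X n c p.1 p.2 (Lam X.m) W T hOk hG hP hp1 hp2 hfree (by omega) h5
        (fun E hE => h3 V X n c W T E hOk hG hP hE)
      rw [← hK] at this
      omega
    · omega
  have hcard : (att X.G c 0 (n - 1) W).card ≤ M.card + Sg.card * (2 + K) := by
    refine (card_le_card hsub).trans ((card_union_le _ _).trans ?_)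
    have := card_biUnion_le_card_mul Sg (fun p => att X.G c p.1 p.2 W) (2 + K) hpc
    omega
  have hMc := hM.card
  have h6 : Sg.card * (2 + K) ≤ mu X.m * (2 + K) := Nat.mul_le_mul_right _ (by omega)
  unfold beta
  rw [← hK]
  have h7 : mu X.m * (2 + K) = 2 * mu X.m + mu X.m * K := by ring
  omega

theorem con_insert {V : Type} [DecidableEq V] (G : SimpleGraph V) (P : Finset V) (x : V)
    (hP : Con G P) (hx : ∃ p ∈ P, G.Adj p x) : Con G (insert x P) := by
  by_cases hxP : x ∈ P
  · rw [insert_eq_of_mem hxP]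
    exact hP
  obtain ⟨p, hp, hpx⟩ := hx
  refine ⟨⟨x, mem_insert_self _ _⟩, ?_⟩
  intro u hu v hv
  rw [mem_insert] at hu hv
  rcases hu with rfl | hu
  · rcases hv with rfl | hv
    · refine ⟨[v], ⟨⟨List.nodup_singleton _, List.isChain_singleton _⟩, rfl, rfl⟩, ?_⟩
      intro y hy
      rw [List.mem_singleton] at hy
      rw [hy]
      exact mem_insert_self _ _
    · obtain ⟨l, ⟨⟨hl1, hl2⟩, hl3, hl4⟩, hl5⟩ := hP.2 p hp v hv
      refine ⟨u :: l, ⟨⟨?_, ?_⟩, rfl, ?_⟩, ?_⟩
      · rw [List.nodup_cons]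
        exact ⟨fun h => hxP (hl5 u h), hl1⟩
      · rw [List.isChain_cons]
        refine ⟨?_, hl2⟩
        intro y hy
        rw [hl3] at hy
        simp only [Option.mem_def, Option.some.injEq] at hy
        rw [← hy]
        exact hpx.symm
      · rw [List.getLast?_cons, hl4]
        rfl
      · intro y hy
        rw [List.mem_cons] at hy
        rcases hy with rfl | hy
        · exact mem_insert_self _ _
        · exact mem_insert_of_mem (hl5 y hy)
  · rcases hv with rfl | hv
    · obtain ⟨l, ⟨⟨hl1, hl2⟩, hl3, hl4⟩, hl5⟩ := hP.2 u hu p hp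
      refine ⟨l ++ [v], ⟨⟨?_, ?_⟩, ?_, ?_⟩, ?_⟩
      · rw [List.nodup_append]
        refine ⟨hl1, List.nodup_singleton _, ?_⟩
        intro a ha b hb
        rw [List.mem_singleton] at hb
        rintro rfl
        rw [hb] at ha
        exact hxP (hl5 v ha)
      · rw [List.isChain_append]
        refine ⟨hl2, List.isChain_singleton _, ?_⟩
        intro y hy z hz
        rw [hl4] at hy
        simp only [Option.mem_def, Option.some.injEq, List.head?_cons] at hy hz
        rw [← hy, ← hz]
        exact hpx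
      · rw [List.head?_append, hl3]
        rfl
      · exact List.getLast?_concat
      · intro y hy
        rw [List.mem_append, List.mem_singleton] at hy
        rcases hy with hy | rfl
        · exact mem_insert_of_mem (hl5 y hy)
        · exact mem_insert_self _ _
    · obtain ⟨l, hl, hl5⟩ := hP.2 u hu v hv
      exact ⟨l, hl, fun y hy => mem_insert_of_mem (hl5 y hy)⟩

theorem con_union {V : Type} [DecidableEq V] (G : SimpleGraph V) (P N : Finset V)
    (hP : Con G P) (hN : ∀ x ∈ N, ∃ p ∈ P, G.Adj p x) : Con G (P ∪ N) := by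
  induction N using Finset.induction_on with
  | empty => rw [union_empty]; exact hP
  | insert x N hx ih =>
    rw [union_insert]
    apply con_insert
    · exact ih (fun y hy => hN y (mem_insert_of_mem hy))
    · obtain ⟨p, hp, hpx⟩ := hN x (mem_insert_self _ _)
      exact ⟨p, mem_union_left _ hp, hpx⟩

theorem beta_mono (m s t : ℕ) (h : s ≤ t) : beta m s ≤ beta m t := by
  unfold beta
  gcongr

theorem t_X (h : S_XP) : S_X := by
  intro V _ X n c P t hOk hG hCon hPA hdis ht
  obtain ⟨Nn, hNn⟩ : ∃ Nn, Nn = nbr X.G X.A P \ img n c := ⟨_, rfl⟩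
  rw [← hNn] at ht
  have hN : ∀ x ∈ Nn, x ∈ X.A ∧ x ∉ P ∧ (∃ p ∈ P, X.G.Adj p x) ∧ x ∉ img n c := by
    intro x hx
    rw [hNn, mem_sdiff] at hx
    obtain ⟨hx1, hx2⟩ := hx
    simp only [nbr, mem_filter] at hx1
    exact ⟨hx1.1, hx1.2.1, hx1.2.2, hx2⟩
  have hPc : Pc X n c (P ∪ Nn) (Nn ∪ (P ∩ X.B)) := by
    refine ⟨?_, ?_, ?_, ?_, ?_, ?_⟩
    · exact con_union X.G P Nn hCon (fun x hx => (hN x hx).2.2.1)
    · exact union_subset hPA (fun x hx => (hN x hx).1)
    · rw [disjoint_union_left]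
      refine ⟨hdis, ?_⟩
      rw [disjoint_left]
      intro x hx
      exact (hN x hx).2.2.2
    · apply union_subset subset_union_right
      exact (inter_subset_left).trans subset_union_left
    · intro x hx
      rw [mem_inter, mem_union] at hx
      rcases hx.2 with h1 | h1
      · exact mem_union_right _ (mem_inter.2 ⟨h1, hx.1⟩)
      · exact mem_union_left _ h1
    · intro v hv hvT w hw
      rw [mem_union] at hv
      have hvP : v ∈ P := by
        rcases hv with h1 | h1
        · exact h1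
        · exact absurd (mem_union_left _ h1) hvT
      simp only [nbr, mem_filter, mem_singleton, exists_eq_left] at hw
      by_cases hwP : w ∈ P
      · exact mem_union_left _ (mem_union_left _ hwP)
      · by_cases hwi : w ∈ img n c
        · exact mem_union_right _ hwi
        · apply mem_union_left
          apply mem_union_right
          rw [hNn, mem_sdiff]
          refine ⟨?_, hwi⟩
          simp only [nbr, mem_filter]
          exact ⟨hw.1, hwP, v, hvP, hw.2.2⟩
  have h1 := h V X n c _ _ hOk hG hPc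
  have h2 : (Nn ∪ (P ∩ X.B)).card ≤ t := (card_union_le _ _).trans ht
  have h3 : nbr X.G X.A P ∩ img n c ⊆ (att X.G c 0 (n - 1) (P ∪ Nn)).image c := by
    intro w hw
    rw [mem_inter] at hw
    obtain ⟨hw1, hw2⟩ := hw
    simp only [nbr, mem_filter] at hw1
    obtain ⟨_, _, p, hp, hpw⟩ := hw1
    unfold img at hw2
    rw [mem_image] at hw2
    obtain ⟨i, hi, rfl⟩ := hw2
    rw [mem_range] at hi
    rw [mem_image]
    refine ⟨i, ?_, rfl⟩
    simp only [att, mem_filter, mem_Icc]
    exact ⟨⟨Nat.zero_le _, by omega⟩, p, mem_union_left _ hp, hpw⟩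
  calc (nbr X.G X.A P ∩ img n c).card ≤ ((att X.G c 0 (n - 1) (P ∪ Nn)).image c).card :=
        card_le_card h3
    _ ≤ (att X.G c 0 (n - 1) (P ∪ Nn)).card := card_image_le
    _ ≤ beta X.m (Nn ∪ (P ∩ X.B)).card := h1
    _ ≤ beta X.m t := beta_mono _ _ _ h2

end Pool.Agent.W356.CH
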